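import Pool.Agent.Helper517.Transfer

/-!
# Iterated polygon and segment bundles have regular unimodular triangulations

Let `P ⊆ ℝ^(m + r)`, `r = 1` or `r = 2`, be a smooth lattice polytope such that at every vertex
exactly the last `r` vectors of a suitable lattice basis of edge directions are vertical, i.e. have
first `m` coordinates zero. In toric terms: the projective toric variety of `P` is a toric fibre
bundle over a smooth toric curve or surface, and the fibre is the toric variety of the projection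
`B ⊆ ℝ^m` of `P`. If `B` has a regular unimodular triangulation, so has `P`. By iteration all
polytopes obtained from a point by successive polygon and segment bundles and unimodular changes of
coordinates are smooth and have regular unimodular triangulations.
-/

namespace Pool.Agent.Results.MP_5fef9b_co.IteratedBundleRUT

open Geometry

/-- `P` is a lattice polytope in `ℝ^d`: the convex hull of a finite nonempty set of points of
`ℤ^d`. -/
def IsLatticePolytope {d : ℕ} (P : Set (Fin d → ℝ)) : Prop :=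
  ∃ S : Set (Fin d → ℝ), S.Finite ∧ S.Nonempty ∧ (∀ v ∈ S, ∀ i, ∃ k : ℤ, v i = (k : ℝ)) ∧
    P = convexHull ℝ S

/-- `P` is a smooth lattice polytope in `ℝ^d`: a lattice polytope such that at every vertex `v`
there is a basis `u 0, …, u (d - 1)` of the lattice `ℤ^d` for which all the points `v + u i` are in
`P` and `P` is contained in the cone `v + ∑ i, ℝ_{≥ 0} u i`; the `u i` are then the primitive
directions of the edges of `P` at `v`. -/
def IsSmoothPolytope {d : ℕ} (P : Set (Fin d → ℝ)) : Prop :=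
  IsLatticePolytope P ∧
    ∀ v ∈ P.extremePoints ℝ, ∃ u : Fin d → (Fin d → ℤ), |Matrix.det (Matrix.of u)| = 1 ∧
      (∀ i, (fun z => v z + (u i z : ℝ)) ∈ P) ∧
      ∀ x ∈ P, ∃ t : Fin d → ℝ, (∀ i, 0 ≤ t i) ∧ ∀ z, x z = v z + ∑ i, t i * (u i z : ℝ)

/-- `P` is a smooth lattice polytope in `ℝ^(m + r)` fibred over its projection to the first `m`
coordinates: at every vertex `v` there is a lattice basis `u` as in the definition of smooth
polytopes, the last `r` vectors of which have their first `m` coordinates equal to zero. -/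
def IsSmoothBundle {m r : ℕ} (P : Set (Fin (m + r) → ℝ)) : Prop :=
  IsLatticePolytope P ∧
    ∀ v ∈ P.extremePoints ℝ, ∃ u : Fin (m + r) → (Fin (m + r) → ℤ),
      |Matrix.det (Matrix.of u)| = 1 ∧ (∀ i, (fun z => v z + (u i z : ℝ)) ∈ P) ∧
      (∀ x ∈ P, ∃ t : Fin (m + r) → ℝ, (∀ i, 0 ≤ t i) ∧
        ∀ z, x z = v z + ∑ i, t i * (u i z : ℝ)) ∧
      ∀ (l : Fin r) (i : Fin m), u (Fin.natAdd m l) (Fin.castAdd r i) = 0

/-- The projection of a subset of `ℝ^(m + r)` to the first `m` coordinates. -/
def proj {m r : ℕ} (P : Set (Fin (m + r) → ℝ)) : Set (Fin m → ℝ) :=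
  (fun (x : Fin (m + r) → ℝ) (i : Fin m) => x (Fin.castAdd r i)) '' P

/-- The polytopes obtained from a point by iterated segment and polygon bundles and unimodular
changes of coordinates. -/
inductive Tower : (d : ℕ) → Set (Fin d → ℝ) → Prop
  | point : Tower 0 Set.univ
  | image {d : ℕ} {P : Set (Fin d → ℝ)} (A : Matrix (Fin d) (Fin d) ℤ) (t : Fin d → ℤ) :
      |A.det| = 1 → Tower d P →
      Tower d ((fun (x : Fin d → ℝ) (i : Fin d) => ∑ z, (A i z : ℝ) * x z + (t i : ℝ)) '' P)
  | bundle {m r : ℕ} {P : Set (Fin (m + r) → ℝ)} :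
      r = 1 ∨ r = 2 → IsSmoothBundle P → Tower m (proj P) → Tower (m + r) P

/-- The lattice points (points of `ℤ^d`) of a subset `Q` of `ℝ^d`. -/
def latticePoints {d : ℕ} (Q : Set (Fin d → ℝ)) : Set (Fin d → ℝ) :=
  {x | x ∈ Q ∧ ∀ i, ∃ k : ℤ, x i = (k : ℝ)}

/-- `K` is the regular triangulation of `Q` induced by the height function `h` on the lattice
points of `Q`: `K` is a simplicial complex with underlying space `Q`, and its faces are exactly the
nonempty finite sets of lattice points of `Q` whose lifts span a lower face of the lifted point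
configuration, i.e. for which some affine functional equals `h` on the set and is strictly smaller
than `h` at all the other lattice points of `Q`. -/
structure IsRegularTriangulation {d : ℕ} (Q : Set (Fin d → ℝ))
    (K : SimplicialComplex ℝ (Fin d → ℝ)) (h : (Fin d → ℝ) → ℝ) : Prop where
  space_eq : K.space = Q
  mem_faces : ∀ σ : Finset (Fin d → ℝ), σ ∈ K.faces ↔
    σ.Nonempty ∧ (∀ v ∈ σ, v ∈ latticePoints Q) ∧
      ∃ (a : Fin d → ℝ) (c : ℝ), (∀ v ∈ σ, ∑ i, a i * v i + c = h v) ∧
        ∀ w ∈ latticePoints Q, w ∉ σ → ∑ i, a i * w i + c < h w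

/-- `σ` is the vertex set of a unimodular simplex of dimension `d`: its elements are `d + 1`
lattice points `v 0, …, v d` with `|det (v 1 - v 0, …, v d - v 0)| = 1`. -/
def IsUnimodularSimplex {d : ℕ} (σ : Finset (Fin d → ℝ)) : Prop :=
  ∃ v : Fin (d + 1) → (Fin d → ℤ), Function.Injective v ∧
    (∀ x, x ∈ σ ↔ ∃ j, x = fun i => (v j i : ℝ)) ∧
    |Matrix.det (Matrix.of fun (j : Fin d) (i : Fin d) => v j.succ i - v 0 i)| = 1

/-- `Q` has a regular unimodular triangulation. -/
def HasRUT {d : ℕ} (Q : Set (Fin d → ℝ)) : Prop :=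
  ∃ (K : SimplicialComplex ℝ (Fin d → ℝ)) (h : (Fin d → ℝ) → ℝ),
    IsRegularTriangulation Q K h ∧ ∀ σ ∈ K.facets, IsUnimodularSimplex σ

open Pool.Agent.Helper517.Conv Pool.Agent.Helper517.Smooth Pool.Agent.Helper517.Frame
open Pool.Agent.Helper517.Sect Pool.Agent.Helper517 Pool.Agent.Helper489.RUT

lemma hasRUT_iff {d : ℕ} (Q : Set (Fin d → ℝ)) :
    HasRUT Q ↔ ∃ (K : SimplicialComplex ℝ (Fin d → ℝ)) (h : (Fin d → ℝ) → ℝ),
      RutData Q K h := by
  constructor
  · rintro ⟨K, h, ⟨h1, h2⟩, h3⟩
    exact ⟨K, h, h1, h2, h3⟩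
  · rintro ⟨K, h, h1, h2, h3⟩
    exact ⟨K, h, ⟨h1, h2⟩, h3⟩

lemma lattice_iff {d : ℕ} {P : Set (Fin d → ℝ)} (hP : IsLatticePolytope P) :
    ∃ S : Set (Fin d → ℤ), S.Finite ∧ P.Nonempty ∧ P = convexHull ℝ (toR '' S) := by
  obtain ⟨S, hSfin, hSne, hSint, hPS⟩ := hP
  have hS : toR '' {x : Fin d → ℤ | toR x ∈ S} = S := by
    ext x
    constructor
    · rintro ⟨y, hy, rfl⟩
      exact hy
    · intro hx
      choose y hy using hSint x hx
      have e : toR y = x := funext (fun i => (hy i).symm)
      exact ⟨y, by show toR y ∈ S; rw [e]; exact hx, e⟩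
  refine ⟨{x : Fin d → ℤ | toR x ∈ S}, hSfin.preimage toR_injective.injOn, ?_, ?_⟩
  · rw [hPS]; exact hSne.convexHull
  · rw [hS]; exact hPS

lemma exists_VD {m r : ℕ} {P : Set (Fin (m + r) → ℝ)} (hP : IsSmoothBundle P) :
    ∀ v, toR v ∈ P.extremePoints ℝ → ∃ u D, VD P v u D := by
  intro v hv
  obtain ⟨u, h1, h2, h3, h4⟩ := hP.2 _ hv
  obtain ⟨D, hD⟩ := exists_dualBasis u h1
  refine ⟨u, D, hD, hv.1, ?_, ?_, h4⟩
  · intro i
    rw [toR_add]
    exact h2 i
  · intro x hx i
    obtain ⟨t, ht, hxt⟩ := h3 x hx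
    have e : x - toR v = ∑ l, t l • toR (u l) := by
      funext z
      rw [Finset.sum_apply]
      simp only [Pi.sub_apply, Pi.smul_apply, smul_eq_mul, toR]
      rw [hxt z]
      simp [toR]
    rw [e, linR_sum]
    simp only [linR_smul, linR_toR, hD.dual]
    have e2 : ∑ l, t l * (((if i = l then 1 else 0 : ℤ)) : ℝ) = t i := by
      rw [Finset.sum_eq_single i]
      · simp
      · intro l _ hl
        rw [if_neg (Ne.symm hl)]; simp
      · intro hc; exact absurd (Finset.mem_univ _) hc
    rw [e2]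
    exact ht i

/-- The fibration step. -/
theorem step {m r : ℕ} (hr : r = 1 ∨ r = 2) {P : Set (Fin (m + r) → ℝ)}
    (hP : IsSmoothBundle P) (hB : HasRUT (proj P)) : HasRUT P := by
  obtain ⟨S, hS, hne, hPS⟩ := lattice_iff hP.1
  have hVD := exists_VD hP
  rw [hasRUT_iff] at hB ⊢
  obtain ⟨K, h, hK⟩ := hB
  rcases hr with rfl | rfl
  · exact Transfer.seg_bundle hS hPS hne hVD (K := K) (h := h) hK
  · exact Bundle.bundle hS hPS hne hVD (K := K) (h := h) hK

/-- Unimodular affine maps preserve smooth polytopes. -/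
theorem smooth_image {d : ℕ} {P : Set (Fin d → ℝ)} (A : Matrix (Fin d) (Fin d) ℤ)
    (t : Fin d → ℤ) (hA : |A.det| = 1) (hP : IsSmoothPolytope P) :
    IsSmoothPolytope
      ((fun (x : Fin d → ℝ) (i : Fin d) => ∑ z, (A i z : ℝ) * x z + (t i : ℝ)) '' P) := by
  classical
  obtain ⟨⟨S, hSfin, hSne, hSint, hPS⟩, hsm⟩ := hP
  set f : (Fin d → ℝ) → (Fin d → ℝ) :=
    fun x i => ∑ z, (A i z : ℝ) * x z + (t i : ℝ) with hf
  have hfcomb : ∀ (x y : Fin d → ℝ) (a b : ℝ), a + b = 1 →
      f (a • x + b • y) = a • f x + b • f y := by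
    intro x y a b hab
    funext i
    simp only [hf, Pi.add_apply, Pi.smul_apply, smul_eq_mul]
    have e1 : ∑ z, (A i z : ℝ) * (a * x z + b * y z) =
        a * ∑ z, (A i z : ℝ) * x z + b * ∑ z, (A i z : ℝ) * y z := by
      rw [Finset.mul_sum, Finset.mul_sum, ← Finset.sum_add_distrib]
      exact Finset.sum_congr rfl (fun z _ => by ring)
    rw [e1]
    linear_combination (-(t i : ℝ)) * hab
  have hunit : IsUnit A.det := Int.isUnit_iff_abs_eq.2 hA
  have hiA : A⁻¹ * A = 1 := Matrix.nonsing_inv_mul A hunit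
  have hinj : Function.Injective f := by
    intro x y hxy
    have h1 : Matrix.mulVec (A.map (fun z : ℤ => (z : ℝ))) x =
        Matrix.mulVec (A.map (fun z : ℤ => (z : ℝ))) y := by
      funext i
      have := congrFun hxy i
      simp only [hf] at this
      exact add_right_cancel this
    have h2 : (A⁻¹.map (fun z : ℤ => (z : ℝ))) * (A.map (fun z : ℤ => (z : ℝ))) = 1 := by
      have h3 := congrArg (fun M : Matrix (Fin d) (Fin d) ℤ => M.map (Int.castRingHom ℝ)) hiA
      simp only [Matrix.map_mul] at h3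
      rw [Matrix.map_one (Int.castRingHom ℝ) (map_zero _) (map_one _)] at h3
      exact h3
    have h3 := congrArg (Matrix.mulVec (A⁻¹.map (fun z : ℤ => (z : ℝ)))) h1
    rw [Matrix.mulVec_mulVec, Matrix.mulVec_mulVec, h2, Matrix.one_mulVec,
      Matrix.one_mulVec] at h3
    exact h3
  have hconv : Convex ℝ P := by rw [hPS]; exact convex_convexHull ℝ _
  refine ⟨⟨f '' S, hSfin.image _, hSne.image _, ?_, ?_⟩, ?_⟩
  · rintro _ ⟨v, hv, rfl⟩ i
    choose k hk using hSint v hv
    refine ⟨∑ z, A i z * k z + t i, ?_⟩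
    simp only [hf]
    push_cast
    simp only [hk]
  · apply Set.Subset.antisymm
    · rintro _ ⟨x, hx, rfl⟩
      have hcv : Convex ℝ {x : Fin d → ℝ | f x ∈ convexHull ℝ (f '' S)} := by
        intro x hx y hy a b ha hb hab
        rw [Set.mem_ofPred_eq, hfcomb _ _ _ _ hab]
        exact (convex_convexHull ℝ _) hx hy ha hb hab
      rw [hPS] at hx
      refine convexHull_min ?_ hcv hx
      intro s hs
      exact subset_convexHull ℝ _ ⟨s, hs, rfl⟩
    · have hcv : Convex ℝ (f '' P) := by
        rintro _ ⟨x, hx, rfl⟩ _ ⟨y, hy, rfl⟩ a b ha hb hab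
        exact ⟨a • x + b • y, hconv hx hy ha hb hab, hfcomb _ _ _ _ hab⟩
      apply convexHull_min _ hcv
      rintro _ ⟨s, hs, rfl⟩
      exact ⟨s, by rw [hPS]; exact subset_convexHull ℝ _ hs, rfl⟩
  · intro w hw
    rw [mem_extremePoints] at hw
    obtain ⟨⟨v, hv, rfl⟩, hext⟩ := hw
    have hvE : v ∈ P.extremePoints ℝ := by
      rw [mem_extremePoints]
      refine ⟨hv, ?_⟩
      intro x hx y hy hseg
      obtain ⟨a, b, ha, hb, hab, rfl⟩ := hseg
      obtain ⟨e1, e2⟩ := hext _ ⟨x, hx, rfl⟩ _ ⟨y, hy, rfl⟩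
        ⟨a, b, ha, hb, hab, (hfcomb _ _ _ _ hab).symm⟩
      exact ⟨hinj e1, hinj e2⟩
    obtain ⟨u, h1, h2, h3⟩ := hsm v hvE
    refine ⟨fun i => A.mulVec (u i), ?_, ?_, ?_⟩
    · have e : (Matrix.of fun i => A.mulVec (u i)) = Matrix.of u * A.transpose := by
        ext i z
        simp only [Matrix.of_apply, Matrix.mulVec, dotProduct, Matrix.mul_apply,
          Matrix.transpose_apply]
        exact Finset.sum_congr rfl (fun l _ => mul_comm _ _)
      rw [e, Matrix.det_mul, Matrix.det_transpose, abs_mul, h1, hA, one_mul]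
    · intro i
      refine ⟨_, h2 i, ?_⟩
      funext z
      simp only [hf, Matrix.mulVec, dotProduct, mul_add, Finset.sum_add_distrib]
      push_cast
      ring
    · rintro _ ⟨x, hx, rfl⟩
      obtain ⟨c, hc, hxc⟩ := h3 x hx
      refine ⟨c, hc, fun z => ?_⟩
      simp only [hf, Matrix.mulVec, dotProduct]
      have e : ∑ l, (A z l : ℝ) * x l = ∑ l, (A z l : ℝ) * v l +
          ∑ i, c i * ((∑ l, A z l * u i l : ℤ) : ℝ) := by
        have e1 : ∀ i, c i * ((∑ l, A z l * u i l : ℤ) : ℝ) =
            ∑ l, c i * ((A z l : ℝ) * (u i l : ℝ)) := by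
          intro i
          push_cast
          rw [Finset.mul_sum]
        simp only [e1]
        rw [Finset.sum_comm, ← Finset.sum_add_distrib]
        refine Finset.sum_congr rfl (fun l _ => ?_)
        rw [hxc l, mul_add, Finset.mul_sum]
        congr 1
        exact Finset.sum_congr rfl (fun i _ => by ring)
      rw [e]
      ring

lemma point_lattice : IsLatticePolytope (Set.univ : Set (Fin 0 → ℝ)) := by
  refine ⟨{0}, Set.finite_singleton _, Set.singleton_nonempty _, fun v _ i => i.elim0, ?_⟩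
  rw [convexHull_singleton]
  ext x
  simp only [Set.mem_univ, Set.mem_singleton_iff, true_iff]
  exact Subsingleton.elim _ _

lemma point_rut : HasRUT (Set.univ : Set (Fin 0 → ℝ)) := by
  classical
  rw [hasRUT_iff]
  refine exists_rut0 (κ := Unit) Set.univ (fun _ => 0) (fun _ _ _ => rfl) {()} (fun _ => 0)
    ?_ ?_ ?_ ?_
  · rintro σ _ _ _ v _
    refine ⟨0, 1, by simp, fun w _ hw => absurd (Subsingleton.elim w v) hw⟩
  · have e : (fun _ : Unit => toR (0 : Fin 0 → ℤ)) '' (({()} : Finset Unit) : Set Unit) =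
        {0} := by
      ext x
      simp only [Finset.coe_singleton, Set.image_singleton, Set.mem_singleton_iff]
      constructor
      · intro _; exact Subsingleton.elim _ _
      · intro _; exact Subsingleton.elim _ _
    rw [e, convexHull_singleton]
    ext x
    simp only [Set.mem_univ, Set.mem_singleton_iff, true_iff]
    exact Subsingleton.elim _ _
  · intro x _
    exact ⟨(), Subsingleton.elim _ _⟩
  · intro φ hφ
    have h0 := hφ () (by simp)
    refine Prod.ext (Subsingleton.elim _ _) ?_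
    simpa [ev] using h0

/-- All towers are smooth and have regular unimodular triangulations. -/
theorem tower {d : ℕ} {P : Set (Fin d → ℝ)} (h : Tower d P) : IsSmoothPolytope P ∧ HasRUT P := by
  induction h with
  | point =>
    refine ⟨⟨point_lattice, ?_⟩, point_rut⟩
    intro v _
    refine ⟨fun i => i.elim0, ?_, fun i => i.elim0, ?_⟩
    · simp
    · intro x _
      exact ⟨0, fun i => i.elim0, fun z => z.elim0⟩
  | @image d P A t hA hT ih =>
    obtain ⟨h1, h2⟩ := ih
    refine ⟨smooth_image A t hA h1, ?_⟩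
    obtain ⟨S, hS, hne, hPS⟩ := lattice_iff h1.1
    rw [hasRUT_iff] at h2 ⊢
    obtain ⟨K, h, hK⟩ := h2
    exact Transfer.rut_equiv hS hPS hne hK A hA t
  | @bundle m r P hr hP hT ih =>
    refine ⟨⟨hP.1, ?_⟩, step hr hP ih.2⟩
    intro v hv
    obtain ⟨u, h1, h2, h3, _⟩ := hP.2 v hv
    exact ⟨u, h1, h2, h3⟩

/-- **Main theorem.** Let `P` be a smooth lattice polytope fibred, with fibres of dimension one or
two, over a polytope with a regular unimodular triangulation. Then `P` has a regular unimodular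
triangulation. Consequently all the polytopes obtained from a point by iterated segment and polygon
bundles and unimodular changes of coordinates are smooth and have regular unimodular
triangulations. -/
theorem result :
    (∀ (m r : ℕ) (P : Set (Fin (m + r) → ℝ)), r = 1 ∨ r = 2 → IsSmoothBundle P →
      HasRUT (proj P) → HasRUT P) ∧
    ∀ (d : ℕ) (P : Set (Fin d → ℝ)), Tower d P → IsSmoothPolytope P ∧ HasRUT P :=
  ⟨fun _ _ _ hr hP hB => step hr hP hB, fun _ _ h => tower h⟩

end Pool.Agent.Results.MP_5fef9b_co.IteratedBundleRUT
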