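import Pool.Agent.Helper517.Prism

/-!
# Smooth Cayley polytopes over polygons have regular unimodular triangulations

Let `P` be a smooth lattice polytope of dimension `k + 2` which an integral affine map takes onto
the standard unimodular simplex of dimension `k`; in other words `P` is a Cayley polytope
`Cayley(Q_0, …, Q_k)` of lattice polytopes `Q_0, …, Q_k` of dimension at most two. Then `P` has a
regular unimodular triangulation. (For `k = 1`: all smooth three-dimensional polytopes of lattice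
width one.)
-/

namespace Pool.Agent.Results.MP_5fef9b_co.SmoothCayleyRUT

open Geometry

/-- `P` is a lattice polytope in `ℝ^d`: the convex hull of a finite nonempty set of points of
`ℤ^d`. -/
def IsLatticePolytope {d : ℕ} (P : Set (Fin d → ℝ)) : Prop :=
  ∃ S : Set (Fin d → ℝ), S.Finite ∧ S.Nonempty ∧ (∀ v ∈ S, ∀ i, ∃ k : ℤ, v i = (k : ℝ)) ∧
    P = convexHull ℝ S

/-- `P` is a smooth lattice polytope in `ℝ^d`: a lattice polytope such that at every vertex `v`
there is a basis `u 0, …, u (d - 1)` of the lattice `ℤ^d` for which all the points `v + u i` are in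
`P` and `P` is contained in the cone `v + ∑ i, ℝ_{≥ 0} u i`; the `u i` are then the primitive
directions of the edges of `P` at `v`. -/
def IsSmoothPolytope {d : ℕ} (P : Set (Fin d → ℝ)) : Prop :=
  IsLatticePolytope P ∧
    ∀ v ∈ P.extremePoints ℝ, ∃ u : Fin d → (Fin d → ℤ), |Matrix.det (Matrix.of u)| = 1 ∧
      (∀ i, (fun z => v z + (u i z : ℝ)) ∈ P) ∧
      ∀ x ∈ P, ∃ t : Fin d → ℝ, (∀ i, 0 ≤ t i) ∧ ∀ z, x z = v z + ∑ i, t i * (u i z : ℝ)

/-- An affine map `ℝ^d → ℝ^k` with integral coefficients takes `P` onto the standard unimodular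
simplex `{y | 0 ≤ y i for all i, ∑ i, y i ≤ 1}`. -/
def MapsOntoUnimodularSimplex {d : ℕ} (P : Set (Fin d → ℝ)) (k : ℕ) : Prop :=
  ∃ (M : Fin k → Fin d → ℤ) (b : Fin k → ℤ),
    (fun (x : Fin d → ℝ) (i : Fin k) => ∑ z, (M i z : ℝ) * x z + (b i : ℝ)) '' P =
      {y : Fin k → ℝ | (∀ i, 0 ≤ y i) ∧ ∑ i, y i ≤ 1}

/-- The lattice points (points of `ℤ^d`) of a subset `Q` of `ℝ^d`. -/
def latticePoints {d : ℕ} (Q : Set (Fin d → ℝ)) : Set (Fin d → ℝ) :=
  {x | x ∈ Q ∧ ∀ i, ∃ k : ℤ, x i = (k : ℝ)}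

/-- `K` is the regular triangulation of `Q` induced by the height function `h` on the lattice
points of `Q`: `K` is a simplicial complex with underlying space `Q`, and its faces are exactly the
nonempty finite sets of lattice points of `Q` whose lifts span a lower face of the lifted point
configuration, i.e. for which some affine functional equals `h` on the set and is strictly smaller
than `h` at all the other lattice points of `Q`. -/
structure IsRegularTriangulation {d : ℕ} (Q : Set (Fin d → ℝ))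
    (K : SimplicialComplex ℝ (Fin d → ℝ)) (h : (Fin d → ℝ) → ℝ) : Prop where
  space_eq : K.space = Q
  mem_faces : ∀ σ : Finset (Fin d → ℝ), σ ∈ K.faces ↔
    σ.Nonempty ∧ (∀ v ∈ σ, v ∈ latticePoints Q) ∧
      ∃ (a : Fin d → ℝ) (c : ℝ), (∀ v ∈ σ, ∑ i, a i * v i + c = h v) ∧
        ∀ w ∈ latticePoints Q, w ∉ σ → ∑ i, a i * w i + c < h w

/-- `σ` is the vertex set of a unimodular simplex of dimension `d`: its elements are `d + 1`
lattice points `v 0, …, v d` with `|det (v 1 - v 0, …, v d - v 0)| = 1`. -/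
def IsUnimodularSimplex {d : ℕ} (σ : Finset (Fin d → ℝ)) : Prop :=
  ∃ v : Fin (d + 1) → (Fin d → ℤ), Function.Injective v ∧
    (∀ x, x ∈ σ ↔ ∃ j, x = fun i => (v j i : ℝ)) ∧
    |Matrix.det (Matrix.of fun (j : Fin d) (i : Fin d) => v j.succ i - v 0 i)| = 1

/-- `Q` has a regular unimodular triangulation. -/
def HasRUT {d : ℕ} (Q : Set (Fin d → ℝ)) : Prop :=
  ∃ (K : SimplicialComplex ℝ (Fin d → ℝ)) (h : (Fin d → ℝ) → ℝ),
    IsRegularTriangulation Q K h ∧ ∀ σ ∈ K.facets, IsUnimodularSimplex σ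

open Pool.Agent.Helper517.Conv Pool.Agent.Helper517.Smooth Pool.Agent.Helper517.Frame

/-- **Main theorem.** A smooth lattice polytope of dimension `k + 2` which some integral affine map
takes onto the unimodular simplex of dimension `k` has a regular unimodular triangulation. -/
theorem result (k : ℕ) (P : Set (Fin (k + 2) → ℝ)) (hP : IsSmoothPolytope P)
    (hC : MapsOntoUnimodularSimplex P k) : HasRUT P := by
  classical
  obtain ⟨⟨S, hSfin, _, hSint, hPS⟩, hsm⟩ := hP
  obtain ⟨M, b, hMb⟩ := hC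
  -- integral generators
  have hS : toR '' {x : Fin (k + 2) → ℤ | toR x ∈ S} = S := by
    ext x
    constructor
    · rintro ⟨y, hy, rfl⟩
      exact hy
    · intro hx
      choose y hy using hSint x hx
      have e : toR y = x := funext (fun i => (hy i).symm)
      exact ⟨y, by show toR y ∈ S; rw [e]; exact hx, e⟩
  have hSfin' : {x : Fin (k + 2) → ℤ | toR x ∈ S}.Finite :=
    hSfin.preimage toR_injective.injOn
  -- the barycentric coordinates of the image
  let lam : Fin (k + 1) → (Fin (k + 2) → ℤ) × ℤ :=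
    Fin.cons (fun z => -∑ i, M i z, 1 - ∑ i, b i) (fun i => (M i, b i))
  have hlam0 : ∀ x : Fin (k + 2) → ℝ,
      evR (lam 0) x = 1 - ∑ i, (∑ z, (M i z : ℝ) * x z + (b i : ℝ)) := by
    intro x
    simp only [lam, Fin.cons_zero, evR]
    push_cast
    have e : ∑ z, -(∑ i, (M i z : ℝ)) * x z = -∑ i, ∑ z, (M i z : ℝ) * x z := by
      rw [Finset.sum_comm, ← Finset.sum_neg_distrib]
      refine Finset.sum_congr rfl (fun z _ => ?_)
      rw [neg_mul, Finset.sum_mul]
    rw [e, Finset.sum_add_distrib]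
    ring
  have hlams : ∀ (i : Fin k) (x : Fin (k + 2) → ℝ),
      evR (lam i.succ) x = ∑ z, (M i z : ℝ) * x z + (b i : ℝ) := by
    intro i x
    simp only [lam, Fin.cons_succ, evR]
  have himg : ∀ x ∈ P, (∀ i, 0 ≤ ∑ z, (M i z : ℝ) * x z + (b i : ℝ)) ∧
      ∑ i, (∑ z, (M i z : ℝ) * x z + (b i : ℝ)) ≤ 1 := by
    intro x hx
    have h1 : (fun i : Fin k => ∑ z, (M i z : ℝ) * x z + (b i : ℝ)) ∈
        {y : Fin k → ℝ | (∀ i, 0 ≤ y i) ∧ ∑ i, y i ≤ 1} := by
      rw [← hMb]
      exact ⟨x, hx, rfl⟩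
    exact h1
  suffices hmain : (∀ v ∈ P.extremePoints ℝ, SmoothAt P v) ∧
      (∀ x ∈ P, ∀ j, 0 ≤ evR (lam j) x) ∧ (∀ x ∈ P, ∑ j, evR (lam j) x = 1) ∧
      ∀ j, ∃ x ∈ P, evR (lam j) x = 1 by
    obtain ⟨m1, m2, m3, m4⟩ := hmain
    obtain ⟨K, h, h1, h2, h3⟩ := Pool.Agent.Helper517.Prism.main (P := P)
      {x : Fin (k + 2) → ℤ | toR x ∈ S} hSfin' (by rw [hS]; exact hPS) m1 lam m2 m3 m4
    exact ⟨K, h, ⟨h1, h2⟩, h3⟩
  refine ⟨?_, ?_, ?_, ?_⟩
  · intro v hv
    obtain ⟨u, hu1, hu2, hu3⟩ := hsm v hv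
    refine ⟨u, hu1, fun i => hu2 i, fun x hx => ?_⟩
    obtain ⟨t, ht, hxt⟩ := hu3 x hx
    refine ⟨t, ht, ?_⟩
    funext z
    rw [hxt z]
    simp [toR]
  · intro x hx j
    obtain ⟨g1, g2⟩ := himg x hx
    refine Fin.cases ?_ (fun i => ?_) j
    · rw [hlam0]; linarith
    · rw [hlams]; exact g1 i
  · intro x hx
    rw [Fin.sum_univ_succ, hlam0]
    simp only [hlams]
    ring
  · intro j
    refine Fin.cases ?_ (fun i => ?_) j
    · have h0 : (0 : Fin k → ℝ) ∈ {y : Fin k → ℝ | (∀ i, 0 ≤ y i) ∧ ∑ i, y i ≤ 1} := by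
        refine ⟨fun i => le_rfl, ?_⟩
        simp
      rw [← hMb] at h0
      obtain ⟨x, hx, hx0⟩ := h0
      refine ⟨x, hx, ?_⟩
      have e : ∀ i, ∑ z, (M i z : ℝ) * x z + (b i : ℝ) = 0 := fun i => congrFun hx0 i
      rw [hlam0]
      simp only [e]
      simp
    · have h0 : (Pi.single i 1 : Fin k → ℝ) ∈
          {y : Fin k → ℝ | (∀ i, 0 ≤ y i) ∧ ∑ i, y i ≤ 1} := by
        refine ⟨fun i' => ?_, ?_⟩
        · by_cases hi : i' = i
          · subst hi; simp
          · simp [hi]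
        · simp
      rw [← hMb] at h0
      obtain ⟨x, hx, hx0⟩ := h0
      refine ⟨x, hx, ?_⟩
      have e := congrFun hx0 i
      simp only [Pi.single_eq_same] at e
      rw [hlams]
      exact e

end Pool.Agent.Results.MP_5fef9b_co.SmoothCayleyRUT
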